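import Mathlib

/-!
# Radon property of graph convexities (helper file for MP_93e89b_co): definitions

A convexity on `G` is a family `𝒞` of connected vertex sets with `∅, V ∈ 𝒞` which is closed under
intersection; `hull` is the convex hull, `Radon 𝒞 p` the property `(R_p)`.
-/

set_option autoImplicit false

namespace Pool.Agent.HR54

/-- Convexities on `G`: families of connected vertex sets which contain `∅` and `V` and are closed
under intersection. -/
structure IsConvexity {V : Type} (G : SimpleGraph V) (𝒞 : Set (Set V)) : Prop where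
  conn : ∀ S ∈ 𝒞, (G.induce S).Preconnected
  empty : (∅ : Set V) ∈ 𝒞
  univ : (Set.univ : Set V) ∈ 𝒞
  inter : ∀ S ∈ 𝒞, ∀ T ∈ 𝒞, S ∩ T ∈ 𝒞

/-- The convex hull. -/
def hull {V : Type} (𝒞 : Set (Set V)) (B : Set V) : Set V := ⋂₀ {K : Set V | K ∈ 𝒞 ∧ B ⊆ K}

/-- The Radon property of order `p`. -/
def Radon {V : Type} (𝒞 : Set (Set V)) (p : ℕ) : Prop :=
  ∀ A : Finset V, A.card = p → ∃ B C : Set V, B ⊆ (↑A : Set V) ∧ C ⊆ (↑A : Set V) ∧
    Disjoint B C ∧ (hull 𝒞 B ∩ hull 𝒞 C).Nonempty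

/-- `c` and `x, y, z` induce a claw `K_{1,3}` with centre `c`. -/
def Claw {V : Type} (G : SimpleGraph V) (c x y z : V) : Prop :=
  x ≠ y ∧ x ≠ z ∧ y ≠ z ∧ G.Adj c x ∧ G.Adj c y ∧ G.Adj c z ∧
    ¬ G.Adj x y ∧ ¬ G.Adj x z ∧ ¬ G.Adj y z

/-- `G` has no induced claw. -/
def ClawFree {V : Type} (G : SimpleGraph V) : Prop := ∀ c x y z : V, ¬ Claw G c x y z

/-- Some edge of `G` joins `S` and `T`. -/
def Touch {V : Type} (G : SimpleGraph V) (S T : Set V) : Prop := ∃ x ∈ S, ∃ y ∈ T, G.Adj x y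

/-- `G` has `K_p` as a minor: `p` pairwise disjoint non-empty connected sets of vertices, any
two of which are joined by an edge. -/
def CliqueMinor {V : Type} (G : SimpleGraph V) (p : ℕ) : Prop :=
  ∃ B : Fin p → Set V, (∀ i, (G.induce (B i)).Connected) ∧
    (∀ i j, i ≠ j → Disjoint (B i) (B j)) ∧ ∀ i j, i ≠ j → Touch G (B i) (B j)

end Pool.Agent.HR54
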