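import Mathlib
import Pool.Agent.HR54.Defs

/-!
# Connected sets (helper file for MP_93e89b_co)
-/

set_option autoImplicit false

namespace Pool.Agent.HR54

variable {V : Type} {G : SimpleGraph V}

theorem Touch.symm {S T : Set V} (h : Touch G S T) : Touch G T S := by
  obtain ⟨x, hx, y, hy, hxy⟩ := h
  exact ⟨y, hy, x, hx, hxy.symm⟩

theorem Touch.mono {S T S' T' : Set V} (h : Touch G S T) (hS : S ⊆ S') (hT : T ⊆ T') :
    Touch G S' T' := by
  obtain ⟨x, hx, y, hy, hxy⟩ := h
  exact ⟨x, hS hx, y, hT hy, hxy⟩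

theorem conn_singleton (a : V) : (G.induce {a}).Connected := by
  rw [SimpleGraph.induce_singleton_eq_top]
  exact SimpleGraph.connected_top

/-- `SimpleGraph.connected_induce_union` -/
theorem conn_union {S T : Set V} (hS : (G.induce S).Connected) (hT : (G.induce T).Connected)
    (h : Touch G S T) : (G.induce (S ∪ T)).Connected := by
  obtain ⟨x, hx, y, hy, hxy⟩ := h
  exact SimpleGraph.connected_induce_union hS.preconnected hT.preconnected hx hy hxy

/-- A union of connected sets which contain the point `a`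
(`SimpleGraph.induce_connected_of_patches`). -/
theorem conn_iUnion {ι : Type} (a : V) (S : ι → Set V) (h : ∀ i, (G.induce (S i)).Connected)
    (ha : ∀ i, a ∈ S i) : (G.induce ({a} ∪ ⋃ i, S i)).Connected := by
  apply SimpleGraph.induce_connected_of_patches a (Or.inl rfl)
  intro v hv
  rcases hv with hv | hv
  · rw [Set.mem_singleton_iff] at hv
    subst hv
    exact ⟨{v}, Set.subset_union_left, rfl, rfl, SimpleGraph.Reachable.refl _⟩
  · obtain ⟨i, hi⟩ := Set.mem_iUnion.1 hv
    refine ⟨S i, (Set.subset_iUnion S i).trans Set.subset_union_right, ha i, hi, ?_⟩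
    exact (h i).preconnected _ _

private theorem prefix_aux {S R : Set V} {x y : S} (p : (G.induce S).Walk x y) :
    (y : V) ∈ R → (x : V) ∉ R → ∃ K : Set V, (x : V) ∈ K ∧ K ⊆ S \ R ∧
      (G.induce K).Connected ∧ Touch G K (S ∩ R) := by
  induction p with
  | nil => exact fun h1 h2 => absurd h1 h2
  | @cons x z y h p ih =>
    intro hy hx
    have hadj : G.Adj (x : V) (z : V) := h
    by_cases hz : (z : V) ∈ R
    · refine ⟨{(x : V)}, rfl, ?_, conn_singleton _, ⟨x, rfl, z, ⟨z.2, hz⟩, hadj⟩⟩
      intro w hw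
      rw [Set.mem_singleton_iff] at hw
      subst hw
      exact ⟨x.2, hx⟩
    · obtain ⟨K, hzK, hK, hKc, hKt⟩ := ih hy hz
      refine ⟨{(x : V)} ∪ K, Or.inl rfl, ?_,
        conn_union (conn_singleton _) hKc ⟨x, rfl, z, hzK, hadj⟩,
        hKt.mono Set.subset_union_right subset_rfl⟩
      rintro w (hw | hw)
      · rw [Set.mem_singleton_iff] at hw
        subst hw
        exact ⟨x.2, hx⟩
      · exact hK hw

/-- In a connected set `S` there is a connected set which contains `a`, avoids `R` and touches `R`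
(the part of a path from `a` to `R` before `R`; induction on the walk). -/
theorem exists_prefix {S R : Set V} (hS : (G.induce S).Preconnected) {a : V} (ha : a ∈ S)
    (haR : a ∉ R) (hR : (S ∩ R).Nonempty) :
    ∃ K : Set V, a ∈ K ∧ K ⊆ S \ R ∧ (G.induce K).Connected ∧ Touch G K (S ∩ R) := by
  obtain ⟨r, hrS, hrR⟩ := hR
  obtain ⟨p⟩ := hS ⟨a, ha⟩ ⟨r, hrS⟩
  exact prefix_aux p hrR haR

/-- A finite connected set with at least two points has a point which can be removed. -/
theorem exists_remove [Finite V] {T : Set V} (hT : (G.induce T).Connected)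
    (h2 : T.Nontrivial) : ∃ w ∈ T, (G.induce (T \ {w})).Connected := by
  have : Nontrivial T := h2.coe_sort
  obtain ⟨w, hw⟩ := hT.exists_connected_induce_compl_singleton_of_finite_nontrivial
  refine ⟨w, w.2, ?_⟩
  let e : ((G.induce T).induce ({w}ᶜ : Set T)) ≃g G.induce (T \ {(w : V)}) :=
    { toFun := fun x => ⟨x.1.1, x.1.2, fun h => x.2 (Subtype.ext h)⟩
      invFun := fun y => ⟨⟨y.1, y.2.1⟩, fun h => y.2.2 (congrArg Subtype.val h)⟩
      left_inv := fun x => rfl
      right_inv := fun y => rfl
      map_rel_iff' := Iff.rfl }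
  exact e.connected_iff.1 hw

end Pool.Agent.HR54
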