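import Mathlib
import Pool.Agent.HR54.Conn

/-!
# The rooted triangle lemma (helper file for MP_93e89b_co)

`T` connected, `K₁, K₂, K₃` connected, the four sets pairwise disjoint, each `K_i` touches `T`. If
there is no claw with centre in `T` and leaves in the four sets, there are pairwise disjoint connected sets `K_i ⊆ D_i ⊆ K_i ∪ T` which pairwise
touch. PROOF by induction on `|T|`. If two of the `K_i` touch, say `K₁` and `K₂`, take `D₁ = K₁`, `D₂ = K₂`,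
`D₃ = K₃ ∪ T`. Suppose that no two of them touch. If `T = {c}`: `c` has neighbours `x_i ∈ K_i`, a claw.
If `|T| ≥ 2` choose `w ∈ T` with
`T' = T \ {w}` connected (`exists_remove`). If all `K_i` touch `T'`: induction with `T'`. If exactly one, say
`K₁`, does not touch `T'`, it is adjacent to `w`: induction with `T'` and `K₁ ∪ {w}, K₂, K₃` (`w` has a
neighbour in `T'`). If `K₁` and `K₂` do not touch `T'`: `w` has neighbours `x₁ ∈ K₁`, `x₂ ∈ K₂`, `y ∈ T'`, and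
`x₁, x₂` are not adjacent to `y`, a claw.
-/

set_option autoImplicit false

namespace Pool.Agent.HR54

/-- The conclusion of the lemma. -/
private def Good {V : Type} (G : SimpleGraph V) (T K₁ K₂ K₃ : Set V) : Prop :=
  ∃ D₁ D₂ D₃ : Set V, K₁ ⊆ D₁ ∧ D₁ ⊆ K₁ ∪ T ∧ K₂ ⊆ D₂ ∧ D₂ ⊆ K₂ ∪ T ∧ K₃ ⊆ D₃ ∧
      D₃ ⊆ K₃ ∪ T ∧ (G.induce D₁).Connected ∧ (G.induce D₂).Connected ∧
      (G.induce D₃).Connected ∧ Disjoint D₁ D₂ ∧ Disjoint D₁ D₃ ∧ Disjoint D₂ D₃ ∧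
      Touch G D₁ D₂ ∧ Touch G D₁ D₃ ∧ Touch G D₂ D₃

variable {V : Type} {G : SimpleGraph V}

private theorem Good.swap {T K₁ K₂ K₃ : Set V} (h : Good G T K₁ K₂ K₃) : Good G T K₂ K₁ K₃ := by
  obtain ⟨D₁, D₂, D₃, a1, a2, b1, b2, c1, c2, e1, e2, e3, f1, f2, f3, g1, g2, g3⟩ := h
  exact ⟨D₂, D₁, D₃, b1, b2, a1, a2, c1, c2, e2, e1, e3, f1.symm, f3, f2, g1.symm, g3, g2⟩

private theorem Good.swap' {T K₁ K₂ K₃ : Set V} (h : Good G T K₁ K₂ K₃) : Good G T K₁ K₃ K₂ := by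
  obtain ⟨D₁, D₂, D₃, a1, a2, b1, b2, c1, c2, e1, e2, e3, f1, f2, f3, g1, g2, g3⟩ := h
  exact ⟨D₁, D₃, D₂, a1, a2, c1, c2, b1, b2, e1, e3, e2, f2, f1, f3.symm, g2, g1, g3.symm⟩

/-- Two of the three sets touch. -/
private theorem good_of_touch {T K₁ K₂ K₃ : Set V} (hT : (G.induce T).Connected)
    (h₁ : (G.induce K₁).Connected) (h₂ : (G.induce K₂).Connected) (h₃ : (G.induce K₃).Connected)
    (d₁ : Disjoint K₁ T) (d₂ : Disjoint K₂ T) (d₁₂ : Disjoint K₁ K₂) (d₁₃ : Disjoint K₁ K₃)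
    (d₂₃ : Disjoint K₂ K₃) (t₁ : Touch G K₁ T) (t₂ : Touch G K₂ T) (t₃ : Touch G K₃ T)
    (t : Touch G K₁ K₂) : Good G T K₁ K₂ K₃ :=
  ⟨K₁, K₂, K₃ ∪ T, subset_rfl, Set.subset_union_left, subset_rfl, Set.subset_union_left,
    Set.subset_union_left, subset_rfl, h₁, h₂, conn_union h₃ hT t₃, d₁₂,
    Set.disjoint_union_right.2 ⟨d₁₃, d₁⟩, Set.disjoint_union_right.2 ⟨d₂₃, d₂⟩, t,
    t₁.mono subset_rfl Set.subset_union_right, t₂.mono subset_rfl Set.subset_union_right⟩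

/-- A set which touches `T` but not `T \ {w}` has a neighbour of `w`. -/
private theorem adj_of_not_touch {T K : Set V} {w : V} (t : Touch G K T)
    (n : ¬ Touch G K (T \ {w})) : ∃ x ∈ K, G.Adj w x := by
  obtain ⟨x, hx, y, hy, hxy⟩ := t
  by_cases h : y = w
  · subst h
    exact ⟨x, hx, hxy.symm⟩
  · exact absurd ⟨x, hx, y, ⟨hy, h⟩, hxy⟩ n

/-- At most one of the three sets does not touch `T \ {w}`. -/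
private theorem claw {T K₁ K₂ U : Set V}
    (hG : ∀ c ∈ T, ∀ x ∈ U, ∀ y ∈ U, ∀ z ∈ U, ¬ Claw G c x y z) (hTU : T ⊆ U) (hU₁ : K₁ ⊆ U)
    (hU₂ : K₂ ⊆ U) (hT : (G.induce T).Connected)
    (d₁ : Disjoint K₁ T) (d₂ : Disjoint K₂ T) (d₁₂ : Disjoint K₁ K₂) (t₁ : Touch G K₁ T)
    (t₂ : Touch G K₂ T) (t : ¬ Touch G K₁ K₂) {w : V} (hw : w ∈ T)
    (hT' : (G.induce (T \ {w})).Connected) (n₁ : ¬ Touch G K₁ (T \ {w}))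
    (n₂ : ¬ Touch G K₂ (T \ {w})) : False := by
  obtain ⟨x₁, hx₁, ha₁⟩ := adj_of_not_touch t₁ n₁
  obtain ⟨x₂, hx₂, ha₂⟩ := adj_of_not_touch t₂ n₂
  obtain ⟨⟨z, hz⟩⟩ := hT'.nonempty
  obtain ⟨K, _, hK, _, ⟨x, hx, y, hy, hxy⟩⟩ :=
    exists_prefix (R := T \ {w}) hT.preconnected hw (fun h => h.2 rfl) ⟨z, hz.1, hz⟩
  have hxw : x = w := by
    by_contra h
    exact (hK hx).2 ⟨(hK hx).1, h⟩
  subst hxw
  refine hG x hw x₁ (hU₁ hx₁) x₂ (hU₂ hx₂) y (hTU hy.1) ⟨?_, ?_, ?_, ha₁, ha₂, hxy, ?_, ?_, ?_⟩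
  · rintro rfl
    exact Set.disjoint_left.1 d₁₂ hx₁ hx₂
  · rintro rfl
    exact Set.disjoint_left.1 d₁ hx₁ hy.1
  · rintro rfl
    exact Set.disjoint_left.1 d₂ hx₂ hy.1
  · exact fun h => t ⟨x₁, hx₁, x₂, hx₂, h⟩
  · exact fun h => n₁ ⟨x₁, hx₁, y, hy.2, h⟩
  · exact fun h => n₂ ⟨x₂, hx₂, y, hy.2, h⟩

private theorem good [Finite V] (U : Set V) (n : ℕ) : ∀ T K₁ K₂ K₃ : Set V,
    (∀ c ∈ T, ∀ x ∈ U, ∀ y ∈ U, ∀ z ∈ U, ¬ Claw G c x y z) → T ⊆ U → K₁ ⊆ U → K₂ ⊆ U → K₃ ⊆ U →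
    T.ncard = n →
    (G.induce T).Connected → (G.induce K₁).Connected →
    (G.induce K₂).Connected → (G.induce K₃).Connected → Disjoint K₁ T →
    Disjoint K₂ T → Disjoint K₃ T → Disjoint K₁ K₂ → Disjoint K₁ K₃ →
    Disjoint K₂ K₃ → Touch G K₁ T → Touch G K₂ T → Touch G K₃ T → Good G T K₁ K₂ K₃ := by
  induction n using Nat.strong_induction_on with
  | _ n ih =>
  intro T K₁ K₂ K₃ hG hTU hU₁ hU₂ hU₃ hn hT h₁ h₂ h₃ d₁ d₂ d₃ d₁₂ d₁₃ d₂₃ t₁ t₂ t₃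
  by_cases t₁₂ : Touch G K₁ K₂
  · exact good_of_touch hT h₁ h₂ h₃ d₁ d₂ d₁₂ d₁₃ d₂₃ t₁ t₂ t₃ t₁₂
  by_cases t₁₃ : Touch G K₁ K₃
  · exact (good_of_touch hT h₁ h₃ h₂ d₁ d₃ d₁₃ d₁₂ d₂₃.symm t₁ t₃ t₂ t₁₃).swap'
  by_cases t₂₃ : Touch G K₂ K₃
  · exact (good_of_touch hT h₂ h₃ h₁ d₂ d₃ d₂₃ d₁₂.symm d₁₃.symm t₂ t₃ t₁ t₂₃).swap'.swap
  rcases Set.subsingleton_or_nontrivial T with hs | hnt
  · exfalso
    obtain ⟨x₁, hx₁, c₁, hc₁, ha₁⟩ := t₁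
    obtain ⟨x₂, hx₂, c₂, hc₂, ha₂⟩ := t₂
    obtain ⟨x₃, hx₃, c₃, hc₃, ha₃⟩ := t₃
    obtain rfl := hs hc₁ hc₂
    obtain rfl := hs hc₁ hc₃
    refine hG c₁ hc₁ x₁ (hU₁ hx₁) x₂ (hU₂ hx₂) x₃ (hU₃ hx₃) ⟨ ?_, ?_, ?_, ha₁.symm, ha₂.symm, ha₃.symm,
      fun h => t₁₂ ⟨x₁, hx₁, x₂, hx₂, h⟩, fun h => t₁₃ ⟨x₁, hx₁, x₃, hx₃, h⟩,
      fun h => t₂₃ ⟨x₂, hx₂, x₃, hx₃, h⟩⟩
    · rintro rfl
      exact Set.disjoint_left.1 d₁₂ hx₁ hx₂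
    · rintro rfl
      exact Set.disjoint_left.1 d₁₃ hx₁ hx₃
    · rintro rfl
      exact Set.disjoint_left.1 d₂₃ hx₂ hx₃
  obtain ⟨w, hw, hT'⟩ := exists_remove hT hnt
  have hsub : T \ {w} ⊆ T := Set.sdiff_subset
  have hlt : (T \ {w}).ncard < n := by
    rw [← hn]
    exact Set.ncard_lt_ncard ⟨hsub, fun h => (h hw).2 rfl⟩ (Set.toFinite T)
  have hwT : Disjoint {w} (T \ {w}) := Set.disjoint_sdiff_right
  -- the case that exactly one of the three sets does not touch `T \ {w}`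
  have one : ∀ L₁ L₂ L₃ : Set V, L₁ ⊆ U → L₂ ⊆ U → L₃ ⊆ U → (G.induce L₁).Connected → (G.induce L₂).Connected →
      (G.induce L₃).Connected → Disjoint L₁ T → Disjoint L₂ T → Disjoint L₃ T → Disjoint L₁ L₂ →
      Disjoint L₁ L₃ → Disjoint L₂ L₃ → Touch G L₁ T → ¬ Touch G L₁ (T \ {w}) →
      Touch G L₂ (T \ {w}) → Touch G L₃ (T \ {w}) → Good G T L₁ L₂ L₃ := by
    intro L₁ L₂ L₃ g₁ g₂ g₃ e₁ e₂ e₃ f₁ f₂ f₃ f₁₂ f₁₃ f₂₃ u₁ n₁ u₂ u₃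
    obtain ⟨x, hx, hwx⟩ := adj_of_not_touch u₁ n₁
    obtain ⟨⟨z, hz⟩⟩ := hT'.nonempty
    obtain ⟨K, _, hK, _, ⟨x', hx', y, hy, hxy⟩⟩ :=
      exists_prefix (R := T \ {w}) hT.preconnected hw (fun h => h.2 rfl) ⟨z, hz.1, hz⟩
    have hxw : x' = w := by
      by_contra h
      exact (hK hx').2 ⟨(hK hx').1, h⟩
    subst hxw
    have hwL : ∀ {L : Set V}, Disjoint L T → Disjoint ({x'} : Set V) L := by
      intro L hL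
      rw [Set.disjoint_singleton_left]
      exact fun h => Set.disjoint_left.1 hL h hw
    obtain ⟨D₁, D₂, D₃, a1, a2, b1, b2, c1, c2, r⟩ :=
      ih _ hlt (T \ {x'}) (L₁ ∪ {x'}) L₂ L₃ (fun c hc => hG c hc.1)
        (hsub.trans hTU) (Set.union_subset g₁ (Set.singleton_subset_iff.2 (hTU hw))) g₂ g₃ rfl hT'
        (conn_union e₁ (conn_singleton x') ⟨x, hx, x', rfl, hwx.symm⟩) e₂ e₃
        (Set.disjoint_union_left.2 ⟨f₁.mono_right hsub, hwT⟩) (f₂.mono_right hsub)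
        (f₃.mono_right hsub) (Set.disjoint_union_left.2 ⟨f₁₂, hwL f₂⟩)
        (Set.disjoint_union_left.2 ⟨f₁₃, hwL f₃⟩) f₂₃ ⟨x', Or.inr rfl, y, hy.2, hxy⟩ u₂ u₃
    refine ⟨D₁, D₂, D₃, Set.subset_union_left.trans a1, a2.trans ?_, b1,
      b2.trans (Set.union_subset_union_right _ hsub), c1,
      c2.trans (Set.union_subset_union_right _ hsub), r⟩
    rintro v ((hv | hv) | hv)
    · exact Or.inl hv
    · rw [Set.mem_singleton_iff] at hv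
      subst hv
      exact Or.inr hw
    · exact Or.inr hv.1
  by_cases n₁ : Touch G K₁ (T \ {w})
  · by_cases n₂ : Touch G K₂ (T \ {w})
    · by_cases n₃ : Touch G K₃ (T \ {w})
      · obtain ⟨D₁, D₂, D₃, a1, a2, b1, b2, c1, c2, r⟩ :=
          ih _ hlt (T \ {w}) K₁ K₂ K₃ (fun c hc => hG c hc.1) (hsub.trans hTU) hU₁ hU₂ hU₃ rfl hT' h₁ h₂ h₃ (d₁.mono_right hsub) (d₂.mono_right hsub)
            (d₃.mono_right hsub) d₁₂ d₁₃ d₂₃ n₁ n₂ n₃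
        exact ⟨D₁, D₂, D₃, a1, a2.trans (Set.union_subset_union_right _ hsub), b1,
          b2.trans (Set.union_subset_union_right _ hsub), c1,
          c2.trans (Set.union_subset_union_right _ hsub), r⟩
      · exact (one K₃ K₂ K₁ hU₃ hU₂ hU₁ h₃ h₂ h₁ d₃ d₂ d₁ d₂₃.symm d₁₃.symm d₁₂.symm t₃ n₃ n₂
          n₁).swap.swap'.swap
    · by_cases n₃ : Touch G K₃ (T \ {w})
      · exact (one K₂ K₁ K₃ hU₂ hU₁ hU₃ h₂ h₁ h₃ d₂ d₁ d₃ d₁₂.symm d₂₃ d₁₃ t₂ n₂ n₁ n₃).swap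
      · exact (claw hG hTU hU₂ hU₃ hT d₂ d₃ d₂₃ t₂ t₃ t₂₃ hw hT' n₂ n₃).elim
  · by_cases n₂ : Touch G K₂ (T \ {w})
    · by_cases n₃ : Touch G K₃ (T \ {w})
      · exact one K₁ K₂ K₃ hU₁ hU₂ hU₃ h₁ h₂ h₃ d₁ d₂ d₃ d₁₂ d₁₃ d₂₃ t₁ n₁ n₂ n₃
      · exact (claw hG hTU hU₁ hU₃ hT d₁ d₃ d₁₃ t₁ t₃ t₁₃ hw hT' n₁ n₃).elim
    · exact (claw hG hTU hU₁ hU₂ hT d₁ d₂ d₁₂ t₁ t₂ t₁₂ hw hT' n₁ n₂).elim

theorem rooted_triangle {V : Type} [Finite V] {G : SimpleGraph V} {T K₁ K₂ K₃ : Set V}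
    {U : Set V} (hG : ∀ c ∈ T, ∀ x ∈ U, ∀ y ∈ U, ∀ z ∈ U, ¬ Claw G c x y z) (hTU : T ⊆ U)
    (hU₁ : K₁ ⊆ U) (hU₂ : K₂ ⊆ U) (hU₃ : K₃ ⊆ U) (hT : (G.induce T).Connected) (h₁ : (G.induce K₁).Connected)
    (h₂ : (G.induce K₂).Connected) (h₃ : (G.induce K₃).Connected) (d₁ : Disjoint K₁ T)
    (d₂ : Disjoint K₂ T) (d₃ : Disjoint K₃ T) (d₁₂ : Disjoint K₁ K₂) (d₁₃ : Disjoint K₁ K₃)
    (d₂₃ : Disjoint K₂ K₃) (t₁ : Touch G K₁ T) (t₂ : Touch G K₂ T) (t₃ : Touch G K₃ T) :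
    ∃ D₁ D₂ D₃ : Set V, K₁ ⊆ D₁ ∧ D₁ ⊆ K₁ ∪ T ∧ K₂ ⊆ D₂ ∧ D₂ ⊆ K₂ ∪ T ∧ K₃ ⊆ D₃ ∧
      D₃ ⊆ K₃ ∪ T ∧ (G.induce D₁).Connected ∧ (G.induce D₂).Connected ∧
      (G.induce D₃).Connected ∧ Disjoint D₁ D₂ ∧ Disjoint D₁ D₃ ∧ Disjoint D₂ D₃ ∧
      Touch G D₁ D₂ ∧ Touch G D₁ D₃ ∧ Touch G D₂ D₃ :=
  good U T.ncard T K₁ K₂ K₃ hG hTU hU₁ hU₂ hU₃ rfl hT h₁ h₂ h₃ d₁ d₂ d₃ d₁₂ d₁₃ d₂₃ t₁ t₂ t₃

end Pool.Agent.HR54
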