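import Mathlib
import Pool.Agent.HR54.Triangle

/-!
# The core argument (helper file for MP_93e89b_co)

`a i` are the `p` points, `C i j` the hull of `{a i, a j}`. Paper proof: note 3546.
-/

set_option autoImplicit false

namespace Pool.Agent.HR54

/-- The properties of the hulls of pairs that are used. -/
structure Pairs {V : Type} (G : SimpleGraph V) (p : ℕ) (a : Fin p → V)
    (C : Fin p → Fin p → Set V) : Prop where
  symm : ∀ i j, C i j = C j i
  mem : ∀ i j, a i ∈ C i j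
  conn : ∀ i j, (G.induce (C i j)).Preconnected
  conn₂ : ∀ i j k, (G.induce (C i j ∩ C i k)).Preconnected
  conn₃ : ∀ i j k, (G.induce (C i j ∩ C i k ∩ C j k)).Preconnected
  disj : ∀ i j k l, i ≠ k → i ≠ l → j ≠ k → j ≠ l → Disjoint (C i j) (C k l)

variable {V : Type} {G : SimpleGraph V} {p : ℕ} {a : Fin p → V} {C : Fin p → Fin p → Set V}

private theorem Core_mem' (h : Pairs G p a C) (i j : Fin p) : a j ∈ C i j := by
  rw [h.symm i j]
  exact h.mem j i

private theorem Core_notMem (h : Pairs G p a C) {i j k : Fin p} (hj : i ≠ j) (hk : i ≠ k) :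
    a i ∉ C j k := fun hm =>
  Set.disjoint_left.1 (h.disj i i j k hj hk hj hk) (h.mem i i) hm

private theorem Core_meet (h : Pairs G p a C) {i j k l : Fin p} {x : V} (h1 : x ∈ C i j)
    (h2 : x ∈ C k l) : i = k ∨ i = l ∨ j = k ∨ j = l := by
  by_contra hc
  push Not at hc
  obtain ⟨c1, c2, c3, c4⟩ := hc
  exact Set.disjoint_left.1 (h.disj i j k l c1 c2 c3 c4) h1 h2

/-- the part of the graph which belongs to one triple -/
private def CoreU (C : Fin p → Fin p → Set V) (i j k : Fin p) : Set V :=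
  C i j ∩ C i k ∪ C i j ∩ C j k ∪ C i k ∩ C j k

/-- the sets of one triple -/
private theorem Core_triple [Finite V] (h : Pairs G p a C) {i j k : Fin p}
    (hG : ∀ c ∈ C i j ∩ C i k ∩ C j k, ∀ x ∈ CoreU C i j k, ∀ y ∈ CoreU C i j k,
      ∀ z ∈ CoreU C i j k, ¬ Claw G c x y z)
    (hij : i ≠ j) (hik : i ≠ k) (hjk : j ≠ k) : ∃ D₁ D₂ D₃ : Set V,
      (a i ∈ D₁ ∧ D₁ ⊆ C i j ∩ C i k ∧ (G.induce D₁).Connected) ∧
      (a j ∈ D₂ ∧ D₂ ⊆ C i j ∩ C j k ∧ (G.induce D₂).Connected) ∧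
      (a k ∈ D₃ ∧ D₃ ⊆ C i k ∩ C j k ∧ (G.induce D₃).Connected) ∧
      Disjoint D₁ D₂ ∧ Disjoint D₁ D₃ ∧ Disjoint D₂ D₃ ∧
      (C i j ∩ C i k ∩ C j k = ∅ →
        D₁ = C i j ∩ C i k ∧ D₂ = C i j ∩ C j k ∧ D₃ = C i k ∩ C j k) ∧
      ((C i j ∩ C i k ∩ C j k).Nonempty → Touch G D₁ D₂ ∧ Touch G D₁ D₃ ∧ Touch G D₂ D₃) := by
  have c1 : (G.induce (C i j ∩ C i k)).Preconnected := h.conn₂ i j k
  have c2 : (G.induce (C i j ∩ C j k)).Preconnected := by
    rw [h.symm i j]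
    exact h.conn₂ j i k
  have c3 : (G.induce (C i k ∩ C j k)).Preconnected := by
    rw [h.symm i k, h.symm j k]
    exact h.conn₂ k i j
  have m1 : a i ∈ C i j ∩ C i k := ⟨h.mem i j, h.mem i k⟩
  have m2 : a j ∈ C i j ∩ C j k := ⟨Core_mem' h i j, h.mem j k⟩
  have m3 : a k ∈ C i k ∩ C j k := ⟨Core_mem' h i k, Core_mem' h j k⟩
  rcases Set.eq_empty_or_nonempty (C i j ∩ C i k ∩ C j k) with hT | hT
  · refine ⟨C i j ∩ C i k, C i j ∩ C j k, C i k ∩ C j k,
      ⟨m1, subset_rfl, ?_⟩, ⟨m2, subset_rfl, ?_⟩, ⟨m3, subset_rfl, ?_⟩, ?_, ?_, ?_,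
      fun _ => ⟨rfl, rfl, rfl⟩, fun hn => ?_⟩
    · exact (SimpleGraph.connected_iff _).2 ⟨c1, ⟨⟨_, m1⟩⟩⟩
    · exact (SimpleGraph.connected_iff _).2 ⟨c2, ⟨⟨_, m2⟩⟩⟩
    · exact (SimpleGraph.connected_iff _).2 ⟨c3, ⟨⟨_, m3⟩⟩⟩
    · rw [Set.disjoint_left]
      rintro x ⟨x1, x2⟩ ⟨-, x3⟩
      exact (Set.eq_empty_iff_forall_notMem.1 hT x) ⟨⟨x1, x2⟩, x3⟩
    · rw [Set.disjoint_left]
      rintro x ⟨x1, x2⟩ ⟨-, x3⟩
      exact (Set.eq_empty_iff_forall_notMem.1 hT x) ⟨⟨x1, x2⟩, x3⟩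
    · rw [Set.disjoint_left]
      rintro x ⟨x1, x2⟩ ⟨x3, -⟩
      exact (Set.eq_empty_iff_forall_notMem.1 hT x) ⟨⟨x1, x3⟩, x2⟩
    · rw [hT] at hn
      exact absurd hn Set.not_nonempty_empty
  · set T := C i j ∩ C i k ∩ C j k with hTdef
    have hTc : (G.induce T).Connected := (SimpleGraph.connected_iff _).2
      ⟨h.conn₃ i j k, hT.coe_sort⟩
    obtain ⟨v, hv⟩ := hT
    obtain ⟨⟨v1, v2⟩, v3⟩ := hv
    have n1 : a i ∉ T := fun hm => Core_notMem h hij hik hm.2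
    have n2 : a j ∉ T := fun hm => Core_notMem h hij.symm hjk hm.1.2
    have n3 : a k ∉ T := fun hm => Core_notMem h hik.symm hjk.symm hm.1.1
    obtain ⟨K₁, a1, s1, k1, t1⟩ := exists_prefix c1 m1 n1 ⟨v, ⟨v1, v2⟩, ⟨v1, v2⟩, v3⟩
    obtain ⟨K₂, a2, s2, k2, t2⟩ := exists_prefix c2 m2 n2 ⟨v, ⟨v1, v3⟩, ⟨v1, v2⟩, v3⟩
    obtain ⟨K₃, a3, s3, k3, t3⟩ := exists_prefix c3 m3 n3 ⟨v, ⟨v2, v3⟩, ⟨v1, v2⟩, v3⟩
    obtain ⟨D₁, D₂, D₃, e1, e2, e3, e4, e5, e6, f1, f2, f3, g1, g2, g3, l1, l2, l3⟩ :=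
      rooted_triangle hG (fun x hx => Or.inl (Or.inl hx.1))
        (fun x hx => Or.inl (Or.inl (s1 hx).1)) (fun x hx => Or.inl (Or.inr (s2 hx).1))
        (fun x hx => Or.inr (s3 hx).1) hTc k1 k2 k3 (Set.disjoint_left.2 fun x hx => (s1 hx).2)
        (Set.disjoint_left.2 fun x hx => (s2 hx).2) (Set.disjoint_left.2 fun x hx => (s3 hx).2)
        (Set.disjoint_left.2 fun x hx hy => (s1 hx).2 ⟨(s1 hx).1, (s2 hy).1.2⟩)
        (Set.disjoint_left.2 fun x hx hy => (s1 hx).2 ⟨(s1 hx).1, (s3 hy).1.2⟩)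
        (Set.disjoint_left.2 fun x hx hy => (s2 hx).2 ⟨⟨(s2 hx).1.1, (s3 hy).1.1⟩, (s2 hx).1.2⟩)
        (t1.mono subset_rfl Set.inter_subset_right) (t2.mono subset_rfl Set.inter_subset_right)
        (t3.mono subset_rfl Set.inter_subset_right)
    refine ⟨D₁, D₂, D₃, ⟨e1 a1, fun x hx => ?_, f1⟩, ⟨e3 a2, fun x hx => ?_, f2⟩,
      ⟨e5 a3, fun x hx => ?_, f3⟩, g1, g2, g3, fun he => ?_, fun _ => ⟨l1, l2, l3⟩⟩
    · rcases e2 hx with h1 | h1
      · exact (s1 h1).1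
      · exact h1.1
    · rcases e4 hx with h1 | h1
      · exact (s2 h1).1
      · exact ⟨h1.1.1, h1.2⟩
    · rcases e6 hx with h1 | h1
      · exact (s3 h1).1
      · exact ⟨h1.1.2, h1.2⟩
    · exact absurd ⟨⟨v1, v2⟩, v3⟩ (Set.eq_empty_iff_forall_notMem.1 he v)

/-- the property of the sets of a triple, for one ordering -/
private def CoreR (G : SimpleGraph V) (a : Fin p → V) (C : Fin p → Fin p → Set V)
    (D : Fin p → Set V) (x y z : Fin p) : Prop :=
  a x ∈ D x ∧ D x ⊆ C x y ∧ D x ⊆ C x z ∧ (G.induce (D x)).Connected ∧ Disjoint (D x) (D y) ∧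
    ((∀ v, v ∈ C x y → v ∈ C x z → v ∉ C y z) → ∀ v, v ∈ C x y → v ∈ C x z → v ∈ D x) ∧
    ∀ v, v ∈ C x y → v ∈ C x z → v ∈ C y z → Touch G (D x) (D y)

/-- no triple contains a claw -/
private def CoreG (G : SimpleGraph V) (C : Fin p → Fin p → Set V) : Prop :=
  ∀ i j k, i ≠ j → i ≠ k → j ≠ k → ∀ c ∈ C i j ∩ C i k ∩ C j k, ∀ x ∈ CoreU C i j k,
    ∀ y ∈ CoreU C i j k, ∀ z ∈ CoreU C i j k, ¬ Claw G c x y z

private theorem Core_fun [Finite V] (hG : CoreG G C) (h : Pairs G p a C) (t : Finset (Fin p))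
    (ht : t.card = 3) : ∃ D : Fin p → Set V, ∀ x ∈ t, ∀ y ∈ t, ∀ z ∈ t, x ≠ y → x ≠ z → y ≠ z →
      CoreR G a C D x y z := by
  obtain ⟨i, j, k, hij, hik, hjk, rfl⟩ := Finset.card_eq_three.1 ht
  obtain ⟨D₁, D₂, D₃, ⟨a1, s1, c1⟩, ⟨a2, s2, c2⟩, ⟨a3, s3, c3⟩, g1, g2, g3, he, hn⟩ :=
    Core_triple h (hG i j k hij hik hjk) hij hik hjk
  have he' : (∀ v, v ∈ C i j → v ∈ C i k → v ∉ C j k) →
      D₁ = C i j ∩ C i k ∧ D₂ = C i j ∩ C j k ∧ D₃ = C i k ∩ C j k := fun h1 =>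
    he (Set.eq_empty_iff_forall_notMem.2 fun v hv => h1 v hv.1.1 hv.1.2 hv.2)
  have hn' : ∀ v, v ∈ C i j → v ∈ C i k → v ∈ C j k →
      Touch G D₁ D₂ ∧ Touch G D₁ D₃ ∧ Touch G D₂ D₃ := fun v v1 v2 v3 => hn ⟨v, ⟨v1, v2⟩, v3⟩
  have q1 : C j i = C i j := h.symm j i
  have q2 : C k i = C i k := h.symm k i
  have q3 : C k j = C j k := h.symm k j
  obtain ⟨D, d1, d2, d3⟩ : ∃ D : Fin p → Set V, D i = D₁ ∧ D j = D₂ ∧ D k = D₃ :=
    ⟨fun x => if x = i then D₁ else if x = j then D₂ else D₃, by simp,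
      by simp [hij.symm], by simp [hik.symm, hjk.symm]⟩
  refine ⟨D, ?_⟩
  intro x hx y hy z hz hxy hxz hyz
  simp only [Finset.mem_insert, Finset.mem_singleton] at hx hy hz
  unfold CoreR
  have s1a : ∀ v ∈ D₁, v ∈ C i j := fun v hv => (s1 hv).1
  have s1b : ∀ v ∈ D₁, v ∈ C i k := fun v hv => (s1 hv).2
  have s2a : ∀ v ∈ D₂, v ∈ C i j := fun v hv => (s2 hv).1
  have s2b : ∀ v ∈ D₂, v ∈ C j k := fun v hv => (s2 hv).2
  have s3a : ∀ v ∈ D₃, v ∈ C i k := fun v hv => (s3 hv).1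
  have s3b : ∀ v ∈ D₃, v ∈ C j k := fun v hv => (s3 hv).2
  rcases hx with rfl | rfl | rfl <;> rcases hy with rfl | rfl | rfl <;>
    rcases hz with rfl | rfl | rfl <;> first
      | exact absurd rfl hxy
      | exact absurd rfl hxz
      | exact absurd rfl hyz
      | skip
  all_goals simp only [d1, d2, d3, q1, q2, q3]
  · refine ⟨a1, s1a, s1b, (by rw [d1]; exact c1), g1, fun h1 v v1 v2 => ?_, fun v v1 v2 v3 => (hn' v v1 v2 v3).1⟩
    rw [(he' fun v w1 w2 w3 => h1 v w1 w2 w3).1]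
    exact ⟨v1, v2⟩
  · refine ⟨a1, s1b, s1a, (by rw [d1]; exact c1), g2, fun h1 v v1 v2 => ?_,
      fun v v1 v2 v3 => (hn' v v2 v1 v3).2.1⟩
    rw [(he' fun v w1 w2 w3 => h1 v w2 w1 w3).1]
    exact ⟨v2, v1⟩
  · refine ⟨a2, s2a, s2b, (by rw [d2]; exact c2), g1.symm, fun h1 v v1 v2 => ?_,
      fun v v1 v2 v3 => (hn' v v1 v3 v2).1.symm⟩
    rw [(he' fun v w1 w2 w3 => h1 v w1 w3 w2).2.1]
    exact ⟨v1, v2⟩
  · refine ⟨a2, s2b, s2a, (by rw [d2]; exact c2), g3, fun h1 v v1 v2 => ?_,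
      fun v v1 v2 v3 => (hn' v v2 v3 v1).2.2⟩
    rw [(he' fun v w1 w2 w3 => h1 v w3 w1 w2).2.1]
    exact ⟨v2, v1⟩
  · refine ⟨a3, s3a, s3b, (by rw [d3]; exact c3), g2.symm, fun h1 v v1 v2 => ?_,
      fun v v1 v2 v3 => (hn' v v3 v1 v2).2.1.symm⟩
    rw [(he' fun v w1 w2 w3 => h1 v w2 w3 w1).2.2]
    exact ⟨v1, v2⟩
  · refine ⟨a3, s3b, s3a, (by rw [d3]; exact c3), g3.symm, fun h1 v v1 v2 => ?_,
      fun v v1 v2 v3 => (hn' v v3 v2 v1).2.2.symm⟩
    rw [(he' fun v w1 w2 w3 => h1 v w3 w2 w1).2.2]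
    exact ⟨v2, v1⟩

/-- a clean pair: all its triples have empty intersection -/
private def CoreClean (C : Fin p → Fin p → Set V) (i k : Fin p) : Prop :=
  ∀ m, m ≠ i → m ≠ k → ∀ v, v ∈ C i k → v ∈ C i m → v ∉ C k m

/-- the sets `B i` -/
private def CoreB (a : Fin p → V) (D : Finset (Fin p) → Fin p → Set V) (i : Fin p) : Set V :=
  {x | x = a i ∨ ∃ k l, i ≠ k ∧ i ≠ l ∧ k ≠ l ∧ x ∈ D {i, k, l} i}

private theorem CoreB_disj (h : Pairs G p a C) {D : Finset (Fin p) → Fin p → Set V}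
    (hR : ∀ i j k, i ≠ j → i ≠ k → j ≠ k → CoreR G a C (D {i, j, k}) i j k) {i j : Fin p}
    (hij : i ≠ j) {x : V} (hx : x ∈ CoreB a D i) : x ∉ CoreB a D j := by
  intro hy
  rcases hx with rfl | ⟨k, l, hik, hil, hkl, hx⟩
  · rcases hy with hy | ⟨m, n, hjm, hjn, hmn, hy⟩
    · have h1 := h.mem j j
      rw [← hy] at h1
      exact Core_notMem h hij hij h1
    · obtain ⟨-, s1, s2, -⟩ := hR j m n hjm hjn hmn
      by_cases him : i = m
      · exact Core_notMem h hij (fun hin => hmn (him.symm.trans hin)) (s2 hy)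
      · exact Core_notMem h hij him (s1 hy)
  · obtain ⟨-, s1, s2, -⟩ := hR i k l hik hil hkl
    rcases hy with rfl | ⟨m, n, hjm, hjn, hmn, hy⟩
    · by_cases hjk : j = k
      · exact Core_notMem h hij.symm (fun hjl => hkl (hjk.symm.trans hjl)) (s2 hx)
      · exact Core_notMem h hij.symm hjk (s1 hx)
    · obtain ⟨-, u1, u2, -⟩ := hR j m n hjm hjn hmn
      have e1 := Core_meet h (s1 hx) (u1 hy)
      have e2 := Core_meet h (s1 hx) (u2 hy)
      have e3 := Core_meet h (s2 hx) (u1 hy)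
      have e4 := Core_meet h (s2 hx) (u2 hy)
      have hts : ({i, k, l} : Finset (Fin p)) = {j, m, n} := by
        grind
      have hjt : j ∈ ({i, k, l} : Finset (Fin p)) := by rw [hts]; simp
      rw [← hts] at hy
      simp only [Finset.mem_insert, Finset.mem_singleton] at hjt
      rcases hjt with hj | hj | hj
      · exact hij hj.symm
      · subst hj
        exact Set.disjoint_left.1 (hR i j l hik hil hkl).2.2.2.2.1 hx hy
      · subst hj
        have h5 := hR i j k hil hik hkl.symm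
        have h6 : ({i, j, k} : Finset (Fin p)) = {i, k, j} := by
          ext x
          simp only [Finset.mem_insert, Finset.mem_singleton]
          tauto
        rw [h6] at h5
        exact Set.disjoint_left.1 h5.2.2.2.2.1 hx hy

/-- empty triples -/
private theorem CoreB_mem {D : Finset (Fin p) → Fin p → Set V}
    (hR : ∀ i j k, i ≠ j → i ≠ k → j ≠ k → CoreR G a C (D {i, j, k}) i j k) {i j k : Fin p}
    (hij : i ≠ j) (hik : i ≠ k) (hjk : j ≠ k)
    (he : ∀ v, v ∈ C i j → v ∈ C i k → v ∉ C j k) {v : V} (v1 : v ∈ C i j) (v2 : v ∈ C i k) :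
    v ∈ CoreB a D i :=
  Or.inr ⟨j, k, hij, hik, hjk, (hR i j k hij hik hjk).2.2.2.2.2.1 he v v1 v2⟩

private theorem CoreB_clean (h : Pairs G p a C) {D : Finset (Fin p) → Fin p → Set V}
    (hR : ∀ i j k, i ≠ j → i ≠ k → j ≠ k → CoreR G a C (D {i, j, k}) i j k) {i j k : Fin p}
    (hij : i ≠ j) (hjk : j ≠ k) (hcl : CoreClean C i k) {x : V} (hx : x ∈ C i k) :
    x ∉ CoreB a D j := by
  intro hy
  rcases hy with rfl | ⟨m, n, hjm, hjn, hmn, hy⟩
  · exact Core_notMem h hij.symm hjk hx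
  · obtain ⟨-, u1, u2, -⟩ := hR j m n hjm hjn hmn
    have e1 := Core_meet h hx (u1 hy)
    have e2 := Core_meet h hx (u2 hy)
    have e3 : (m = i ∧ n = k) ∨ (m = k ∧ n = i) := by grind
    rcases e3 with ⟨rfl, rfl⟩ | ⟨rfl, rfl⟩
    · refine hcl j hij.symm hjk x hx ?_ ?_
      · rw [h.symm m j]
        exact u1 hy
      · rw [h.symm n j]
        exact u2 hy
    · refine hcl j hij.symm hjk x hx ?_ ?_
      · rw [h.symm n j]
        exact u2 hy
      · rw [h.symm m j]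
        exact u1 hy

/-- the links of clean pairs -/
private def CoreE (G : SimpleGraph V) (a : Fin p → V) (C : Fin p → Fin p → Set V)
    (D : Finset (Fin p) → Fin p → Set V) (E : Fin p → Fin p → Set V) : Prop :=
  ∀ i j, i ≠ j → a i ∈ E i j ∧ E i j ⊆ C i j \ CoreB a D j ∧ (G.induce (E i j)).Connected ∧
    Touch G (E i j) (C i j ∩ CoreB a D j)

private theorem CoreE_B (h : Pairs G p a C) {D : Finset (Fin p) → Fin p → Set V}
    (hR : ∀ i j k, i ≠ j → i ≠ k → j ≠ k → CoreR G a C (D {i, j, k}) i j k)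
    {E : Fin p → Fin p → Set V} (hE : CoreE G a C D E) {i j k : Fin p} (hij : i ≠ j)
    (hik : i < k) (hcl : CoreClean C i k) {x : V} (hx : x ∈ E i k) : x ∉ CoreB a D j := by
  by_cases hjk : j = k
  · subst hjk
    exact ((hE i j hij).2.1 hx).2
  · exact CoreB_clean h hR hij hjk hcl ((hE i k hik.ne).2.1 hx).1

private theorem CoreE_disj (h : Pairs G p a C) {D : Finset (Fin p) → Fin p → Set V}
    (hR : ∀ i j k, i ≠ j → i ≠ k → j ≠ k → CoreR G a C (D {i, j, k}) i j k)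
    {E : Fin p → Fin p → Set V} (hE : CoreE G a C D E) {i j k l : Fin p} (hij : i ≠ j)
    (hik : i < k) (hck : CoreClean C i k) (hjl : j < l) (hcl : CoreClean C j l) {x : V}
    (hx : x ∈ E i k) : x ∉ E j l := by
  intro hy
  have x1 := (hE i k hik.ne).2.1 hx
  have x2 := (hE j l hjl.ne).2.1 hy
  rcases Core_meet h x1.1 x2.1 with e | e | e | e
  · exact hij e
  · -- i = l
    subst e
    have hjk : j ≠ k := (hjl.trans hik).ne
    refine x2.2 (CoreB_mem hR hij hik.ne hjk (fun v v1 v2 v3 => ?_) ?_ x1.1)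
    · exact hck j hij.symm hjk v v2 v1 (by rw [h.symm k j]; exact v3)
    · rw [h.symm i j]
      exact x2.1
  · -- k = j
    subst e
    have hil : i ≠ l := (hik.trans hjl).ne
    refine x1.2 (CoreB_mem hR hij.symm hjl.ne hil (fun v v1 v2 v3 => ?_) ?_ x2.1)
    · exact hck l hil.symm hjl.ne' v (by rw [h.symm i k]; exact v1) v3 v2
    · rw [h.symm k i]
      exact x1.1
  · -- k = l
    subst e
    refine x1.2 (CoreB_mem hR hik.ne' hjl.ne' hij (fun v v1 v2 v3 => ?_) ?_ ?_)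
    · exact hck j hij.symm hjl.ne v (by rw [h.symm i k]; exact v1) v3 v2
    · rw [h.symm k i]
      exact x1.1
    · rw [h.symm k j]
      exact x2.1

/-- the branch sets -/
private def CoreF (a : Fin p → V) (C : Fin p → Fin p → Set V)
    (D : Finset (Fin p) → Fin p → Set V) (E : Fin p → Fin p → Set V) (i : Fin p) : Set V :=
  {a i} ∪ ⋃ s : {q : Fin p × Fin p // i ≠ q.1 ∧ i ≠ q.2 ∧ q.1 ≠ q.2} ⊕
      {k : Fin p // i < k ∧ CoreClean C i k},
      Sum.elim (fun q => D {i, q.1.1, q.1.2} i) (fun k => E i k.1) s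

private theorem CoreF_mem {D : Finset (Fin p) → Fin p → Set V} {E : Fin p → Fin p → Set V}
    {i : Fin p} {x : V} : x ∈ CoreF a C D E i ↔ x ∈ CoreB a D i ∨
      ∃ k, i < k ∧ CoreClean C i k ∧ x ∈ E i k := by
  constructor
  · rintro (hx | hx)
    · exact Or.inl (Or.inl hx)
    · obtain ⟨s, hs⟩ := Set.mem_iUnion.1 hx
      rcases s with ⟨⟨k, l⟩, hik, hil, hkl⟩ | ⟨k, hk, hcl⟩
      · exact Or.inl (Or.inr ⟨k, l, hik, hil, hkl, hs⟩)
      · exact Or.inr ⟨k, hk, hcl, hs⟩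
  · rintro ((hx | ⟨k, l, hik, hil, hkl, hx⟩) | ⟨k, hk, hcl, hx⟩)
    · exact Or.inl hx
    · exact Or.inr (Set.mem_iUnion.2 ⟨Sum.inl ⟨(k, l), hik, hil, hkl⟩, hx⟩)
    · exact Or.inr (Set.mem_iUnion.2 ⟨Sum.inr ⟨k, hk, hcl⟩, hx⟩)

private theorem Core_main [Finite V] (hG : CoreG G C) (h : Pairs G p a C) :
    CliqueMinor G p := by
  classical
  -- the sets of the triples
  have hD : ∀ t : Finset (Fin p), ∃ D : Fin p → Set V, t.card = 3 → ∀ x ∈ t, ∀ y ∈ t, ∀ z ∈ t,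
      x ≠ y → x ≠ z → y ≠ z → CoreR G a C D x y z := by
    intro t
    by_cases ht : t.card = 3
    · obtain ⟨D, h1⟩ := Core_fun hG h t ht
      exact ⟨D, fun _ => h1⟩
    · exact ⟨fun _ => ∅, fun h1 => absurd h1 ht⟩
  choose D hD using hD
  -- the property for three different indices
  have hR : ∀ i j k, i ≠ j → i ≠ k → j ≠ k → CoreR G a C (D {i, j, k}) i j k := by
    intro i j k hij hik hjk
    exact hD {i, j, k} (Finset.card_eq_three.2 ⟨i, j, k, hij, hik, hjk, rfl⟩) i (by simp) j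
      (by simp) k (by simp) hij hik hjk
  have hsets : ∀ i j k : Fin p, ({j, i, k} : Finset (Fin p)) = {i, j, k} := by
    intro i j k
    ext x
    simp only [Finset.mem_insert, Finset.mem_singleton]
    tauto
  -- the links of clean pairs
  have hE : ∀ i j, ∃ E : Set V, i ≠ j → a i ∈ E ∧ E ⊆ C i j \ CoreB a D j ∧
      (G.induce E).Connected ∧ Touch G E (C i j ∩ CoreB a D j) := by
    intro i j
    by_cases hij : i = j
    · exact ⟨∅, fun h1 => absurd hij h1⟩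
    · obtain ⟨E, h1, h2, h3, h4⟩ := exists_prefix (h.conn i j) (h.mem i j)
        (CoreB_disj h hR hij (Or.inl rfl)) ⟨a j, Core_mem' h i j, Or.inl rfl⟩
      exact ⟨E, fun _ => ⟨h1, h2, h3, h4⟩⟩
  choose E hE using hE
  have hE' : CoreE G a C D E := hE
  refine ⟨CoreF a C D E, ?_, ?_, ?_⟩
  · intro i
    refine conn_iUnion (a i) _ ?_ ?_
    · rintro (⟨⟨k, l⟩, hik, hil, hkl⟩ | ⟨k, hk, -⟩)
      · exact (hR i k l hik hil hkl).2.2.2.1
      · exact (hE i k hk.ne).2.2.1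
    · rintro (⟨⟨k, l⟩, hik, hil, hkl⟩ | ⟨k, hk, -⟩)
      · exact (hR i k l hik hil hkl).1
      · exact (hE i k hk.ne).1
  · -- disjointness
    intro i j hij
    rw [Set.disjoint_left]
    intro x hx hy
    rcases CoreF_mem.1 hx with hx | ⟨k, hik, hck, hx⟩
    · rcases CoreF_mem.1 hy with hy | ⟨l, hjl, hcl, hy⟩
      · exact CoreB_disj h hR hij hx hy
      · exact CoreE_B h hR hE' hij.symm hjl hcl hy hx
    · rcases CoreF_mem.1 hy with hy | ⟨l, hjl, hcl, hy⟩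
      · exact CoreE_B h hR hE' hij hik hck hx hy
      · exact CoreE_disj h hR hE' hij hik hck hjl hcl hx hy
  · -- adjacency
    have key : ∀ i j, i < j → Touch G (CoreF a C D E i) (CoreF a C D E j) := by
      intro i j hij
      by_cases hcl : CoreClean C i j
      · refine (hE i j hij.ne).2.2.2.mono (fun x hx => ?_) (fun x hx => ?_)
        · exact CoreF_mem.2 (Or.inr ⟨j, hij, hcl, hx⟩)
        · exact CoreF_mem.2 (Or.inl hx.2)
      · unfold CoreClean at hcl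
        push Not at hcl
        obtain ⟨m, hmi, hmj, v, v1, v2, v3⟩ := hcl
        have h1 := (hR i j m hij.ne hmi.symm hmj.symm).2.2.2.2.2.2 v v1 v2 v3
        refine h1.mono (fun x hx => ?_) (fun x hx => ?_)
        · exact CoreF_mem.2 (Or.inl (Or.inr ⟨j, m, hij.ne, hmi.symm, hmj.symm, hx⟩))
        · refine CoreF_mem.2 (Or.inl (Or.inr ⟨i, m, hij.ne', hmj.symm, hmi.symm, ?_⟩))
          rw [hsets i j m]
          exact hx
    intro i j hij
    rcases lt_or_gt_of_ne hij with h1 | h1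
    · exact key i j h1
    · exact (key j i h1).symm

/-- If `k` vertices meet all claws, `k` of the points can be left out so that no triple of the
other points contains a claw. -/
theorem cliqueMinor_of_pairs {V : Type} [Finite V] {G : SimpleGraph V} {p k : ℕ} {Z : Set V}
    (hZ : ClawFree (G.induce (Zᶜ : Set V))) (hk : Z.ncard ≤ k) {a : Fin (p + k) → V}
    {C : Fin (p + k) → Fin (p + k) → Set V} (h : Pairs G (p + k) a C) : CliqueMinor G p := by
  classical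
  -- an index for every vertex
  have hf : ∀ c : V, ∃ f : Option (Fin (p + k)), ∀ i j l, i ≠ j → i ≠ l → j ≠ l → c ∈ C i j →
      c ∈ C i l → f = some i ∨ f = some j ∨ f = some l := by
    intro c
    by_cases hc : ∃ x y z, x ≠ y ∧ x ≠ z ∧ y ≠ z ∧ c ∈ C x y ∧ c ∈ C x z
    · obtain ⟨x, y, z, hxy, hxz, hyz, c1, c2⟩ := hc
      refine ⟨some x, fun i j l hij hil hjl d1 d2 => ?_⟩
      have e1 := Core_meet h c1 d1
      have e2 := Core_meet h c1 d2
      have e3 := Core_meet h c2 d1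
      have e4 := Core_meet h c2 d2
      have : x = i ∨ x = j ∨ x = l := by grind
      rcases this with rfl | rfl | rfl
      · exact Or.inl rfl
      · exact Or.inr (Or.inl rfl)
      · exact Or.inr (Or.inr rfl)
    · refine ⟨none, fun i j l hij hil hjl d1 d2 => ?_⟩
      exact absurd ⟨i, j, l, hij, hil, hjl, d1, d2⟩ hc
  choose f hf using hf
  have hfin : Z.Finite := Set.toFinite _
  -- the indices which are left out
  set X : Finset (Fin (p + k)) := Finset.univ.filter fun i => ∃ c ∈ Z, f c = some i with hX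
  have hXk : X.card ≤ k := by
    refine le_trans ?_ hk
    rw [Set.ncard_eq_toFinset_card _ hfin]
    have h1 : X.map Function.Embedding.some ⊆ hfin.toFinset.image f := by
      intro y hy
      obtain ⟨i, hi, rfl⟩ := Finset.mem_map.1 hy
      obtain ⟨c, hc, hfc⟩ := (Finset.mem_filter.1 hi).2
      exact Finset.mem_image.2 ⟨c, hfin.mem_toFinset.2 hc, hfc⟩
    have h2 := (Finset.card_le_card h1).trans Finset.card_image_le
    rwa [Finset.card_map] at h2
  have hcard : p ≤ (Finset.univ \ X).card := by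
    have h1 := Finset.card_sdiff_add_card_eq_card (Finset.subset_univ X)
    rw [Finset.card_univ, Fintype.card_fin] at h1
    omega
  obtain ⟨Y, hY, hYp⟩ := Finset.exists_subset_card_eq hcard
  let e : Fin p → Fin (p + k) := fun i => ((Finset.equivFinOfCardEq hYp).symm i : Fin (p + k))
  have he : Function.Injective e := fun i j hij =>
    (Finset.equivFinOfCardEq hYp).symm.injective (Subtype.ext hij)
  have heX : ∀ i, e i ∉ X := fun i =>
    (Finset.mem_sdiff.1 (hY ((Finset.equivFinOfCardEq hYp).symm i).2)).2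
  have h' : Pairs G p (a ∘ e) (fun i j => C (e i) (e j)) :=
    ⟨fun i j => h.symm _ _, fun i j => h.mem _ _, fun i j => h.conn _ _,
      fun i j k => h.conn₂ _ _ _, fun i j k => h.conn₃ _ _ _, fun i j k l h1 h2 h3 h4 =>
        h.disj _ _ _ _ (he.ne h1) (he.ne h2) (he.ne h3) (he.ne h4)⟩
  refine Core_main (fun i j l hij hil hjl c hc x hx y hy z hz hcl => ?_) h'
  -- the vertices of the triple are not in `Z`
  have key : ∀ v ∈ CoreU (fun i j => C (e i) (e j)) i j l, v ∈ (Zᶜ : Set V) := by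
    intro v hv hvZ
    have hX' : ∀ i : Fin (p + k), f v = some i → i ∈ X := fun i hi =>
      Finset.mem_filter.2 ⟨Finset.mem_univ _, v, hvZ, hi⟩
    have q1 : C (e j) (e i) = C (e i) (e j) := h.symm _ _
    have q2 : C (e l) (e i) = C (e i) (e l) := h.symm _ _
    have q3 : C (e l) (e j) = C (e j) (e l) := h.symm _ _
    have h1 : f v = some (e i) ∨ f v = some (e j) ∨ f v = some (e l) := by
      rcases hv with (hv | hv) | hv
      · exact hf v (e i) (e j) (e l) (he.ne hij) (he.ne hil) (he.ne hjl) hv.1 hv.2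
      · have := hf v (e j) (e i) (e l) (he.ne hij.symm) (he.ne hjl) (he.ne hil)
          (q1.symm ▸ hv.1) hv.2
        tauto
      · have := hf v (e l) (e i) (e j) (he.ne hil.symm) (he.ne hjl.symm) (he.ne hij)
          (q2.symm ▸ hv.1) (q3.symm ▸ hv.2)
        tauto
    rcases h1 with h1 | h1 | h1
    · exact heX i (hX' _ h1)
    · exact heX j (hX' _ h1)
    · exact heX l (hX' _ h1)
  have hc' : c ∈ CoreU (fun i j => C (e i) (e j)) i j l := Or.inl (Or.inl hc.1)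
  refine hZ ⟨c, key c hc'⟩ ⟨x, key x hx⟩ ⟨y, key y hy⟩ ⟨z, key z hz⟩ ?_
  obtain ⟨h1, h2, h3, h4, h5, h6, h7, h8, h9⟩ := hcl
  exact ⟨fun hh => h1 (congrArg Subtype.val hh), fun hh => h2 (congrArg Subtype.val hh),
    fun hh => h3 (congrArg Subtype.val hh), h4, h5, h6, h7, h8, h9⟩

end Pool.Agent.HR54
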