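import Mathlib
import Pool.Agent.HR54.Core

/-!
# Hulls (helper file for MP_93e89b_co)

`hull_mem`: the vertex set is finite, so `𝒞` is finite and an intersection of members of `𝒞` is in `𝒞`
(`Set.univ` for the empty family). `pairs_of_not_radon`: if `A` refutes `(R_p)`, let `a : Fin p → V` enumerate
`A` (`Finset.equivFin`) and `C i j = hull 𝒞 {a i, a j}`; disjoint subsets of `A` have disjoint hulls.
-/

set_option autoImplicit false

namespace Pool.Agent.HR54

variable {V : Type} {G : SimpleGraph V}

theorem subset_hull (𝒞 : Set (Set V)) (B : Set V) : B ⊆ hull 𝒞 B := by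
  intro x hx
  unfold hull
  rw [Set.mem_sInter]
  intro K hK
  exact hK.2 hx

theorem hull_subset {𝒞 : Set (Set V)} {B K : Set V} (hK : K ∈ 𝒞) (h : B ⊆ K) :
    hull 𝒞 B ⊆ K :=
  Set.sInter_subset_of_mem ⟨hK, h⟩

theorem hull_mem [Finite V] {𝒞 : Set (Set V)} (h : IsConvexity G 𝒞) (B : Set V) :
    hull 𝒞 B ∈ 𝒞 := by
  have key : ∀ 𝒟 : Set (Set V), 𝒟.Finite → 𝒟 ⊆ 𝒞 → ⋂₀ 𝒟 ∈ 𝒞 := by
    intro 𝒟 hfin
    induction 𝒟, hfin using Set.Finite.induction_on with
    | empty =>
      intro _
      rw [Set.sInter_empty]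
      exact h.univ
    | insert _ _ ih =>
      intro hsub
      rw [Set.sInter_insert]
      exact h.inter _ (hsub (Set.mem_insert _ _)) _
        (ih ((Set.subset_insert _ _).trans hsub))
  exact key _ (Set.toFinite _) (fun K hK => hK.1)

theorem pairs_of_not_radon [Finite V] {𝒞 : Set (Set V)} (h : IsConvexity G 𝒞) {p : ℕ}
    (hR : ¬ Radon 𝒞 p) : ∃ (a : Fin p → V) (C : Fin p → Fin p → Set V), Pairs G p a C := by
  unfold Radon at hR
  push Not at hR
  obtain ⟨A, hA, hno⟩ := hR
  let e : Fin p ≃ A := (Fin.castOrderIso hA.symm).toEquiv.trans A.equivFin.symm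
  let a : Fin p → V := fun i => (e i : V)
  have ha : ∀ i, a i ∈ (↑A : Set V) := fun i => (e i).2
  have hinj : Function.Injective a := fun i j hij => e.injective (Subtype.ext hij)
  refine ⟨a, fun i j => hull 𝒞 {a i, a j}, ?_, ?_, ?_, ?_, ?_, ?_⟩
  · intro i j
    rw [Set.pair_comm]
  · intro i j
    exact subset_hull 𝒞 _ (Set.mem_insert _ _)
  · intro i j
    exact h.conn _ (hull_mem h _)
  · intro i j k
    exact h.conn _ (h.inter _ (hull_mem h _) _ (hull_mem h _))
  · intro i j k
    exact h.conn _ (h.inter _ (h.inter _ (hull_mem h _) _ (hull_mem h _)) _ (hull_mem h _))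
  · intro i j k l hik hil hjk hjl
    rw [Set.disjoint_iff_inter_eq_empty]
    apply hno
    · intro x hx
      rcases hx with rfl | hx
      · exact ha i
      · rw [Set.mem_singleton_iff.1 hx]
        exact ha j
    · intro x hx
      rcases hx with rfl | hx
      · exact ha k
      · rw [Set.mem_singleton_iff.1 hx]
        exact ha l
    · rw [Set.disjoint_left]
      rintro x (rfl | hx) hx'
      · rcases hx' with hx' | hx'
        · exact hik (hinj hx')
        · exact hil (hinj (Set.mem_singleton_iff.1 hx'))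
      · rw [Set.mem_singleton_iff] at hx
        subst hx
        rcases hx' with hx' | hx'
        · exact hjk (hinj hx')
        · exact hjl (hinj (Set.mem_singleton_iff.1 hx'))

end Pool.Agent.HR54
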