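import Mathlib
import Pool.Agent.HR54.Hull

/-!
# A clique minor gives a convexity without the Radon property (helper file for MP_93e89b_co)

`𝒞 = {⋃ i ∈ I, B i | I : Set (Fin p)} ∪ {Set.univ}`. A union of sets `B i` is connected, because any two of
them touch; `(⋃ i ∈ I, B i) ∩ (⋃ i ∈ J, B i) = ⋃ i ∈ I ∩ J, B i` by disjointness. Choose `a i ∈ B i` and
`A = Finset.univ.image a` (`a` is injective). If `X, Y ⊆ A` are disjoint, let `I = {i | a i ∈ X}`, `J = {i | a i ∈ Y}`:
`hull 𝒞 X ⊆ ⋃ i ∈ I, B i`, `hull 𝒞 Y ⊆ ⋃ i ∈ J, B i`, and these are disjoint.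
-/

set_option autoImplicit false

namespace Pool.Agent.HR54

private theorem Easy_conn {V : Type} {G : SimpleGraph V} {p : ℕ} {B : Fin p → Set V}
    (hB : ∀ i, (G.induce (B i)).Connected) (ht : ∀ i j, i ≠ j → Touch G (B i) (B j))
    (I : Set (Fin p)) : (G.induce (⋃ i ∈ I, B i)).Preconnected := by
  rcases (⋃ i ∈ I, B i).eq_empty_or_nonempty with h0 | ⟨u, hu⟩
  · rw [h0]
    intro x
    exact absurd x.2 (Set.notMem_empty _)
  · obtain ⟨i, hi, hui⟩ := Set.mem_iUnion₂.1 hu
    refine (SimpleGraph.induce_connected_of_patches u hu ?_).preconnected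
    intro w hw
    obtain ⟨j, hj, hwj⟩ := Set.mem_iUnion₂.1 hw
    by_cases hij : i = j
    · subst hij
      exact ⟨B i, Set.subset_biUnion_of_mem hi, hui, hwj, (hB i).preconnected _ _⟩
    · refine ⟨B i ∪ B j, Set.union_subset (Set.subset_biUnion_of_mem hi)
        (Set.subset_biUnion_of_mem hj), Or.inl hui, Or.inr hwj, ?_⟩
      exact (conn_union (hB i) (hB j) (ht i j hij)).preconnected _ _

theorem exists_convexity {V : Type} [Finite V] {G : SimpleGraph V} (hG : G.Connected) {p : ℕ}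
    (h : CliqueMinor G p) : ∃ 𝒞 : Set (Set V), IsConvexity G 𝒞 ∧ ¬ Radon 𝒞 p := by
  classical
  obtain ⟨B, hB, hd, ht⟩ := h
  have hinter : ∀ I J : Set (Fin p),
      (⋃ i ∈ I, B i) ∩ (⋃ i ∈ J, B i) = ⋃ i ∈ I ∩ J, B i := by
    intro I J
    ext v
    simp only [Set.mem_inter_iff, Set.mem_iUnion, exists_prop]
    constructor
    · rintro ⟨⟨i, hi, hvi⟩, ⟨j, hj, hvj⟩⟩
      have hij : i = j := by
        by_contra hne
        exact Set.disjoint_left.1 (hd i j hne) hvi hvj
      subst hij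
      exact ⟨i, ⟨hi, hj⟩, hvi⟩
    · rintro ⟨i, ⟨hi, hj⟩, hvi⟩
      exact ⟨⟨i, hi, hvi⟩, ⟨i, hj, hvi⟩⟩
  refine ⟨{S | S = Set.univ ∨ ∃ I : Set (Fin p), S = ⋃ i ∈ I, B i}, ?_, ?_⟩
  · refine ⟨?_, ?_, ?_, ?_⟩
    · rintro S (rfl | ⟨I, rfl⟩)
      · have e : G.induce (Set.univ : Set V) ≃g G := SimpleGraph.induceUnivIso G
        exact (e.connected_iff.2 hG).preconnected
      · exact Easy_conn hB ht I
    · right
      refine ⟨∅, ?_⟩
      simp
    · exact Or.inl rfl
    · rintro S (rfl | ⟨I, rfl⟩) T (rfl | ⟨J, rfl⟩)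
      · left
        exact Set.univ_inter _
      · right
        exact ⟨J, Set.univ_inter _⟩
      · right
        exact ⟨I, Set.inter_univ _⟩
      · right
        exact ⟨I ∩ J, hinter I J⟩
  · intro hR
    let a : ∀ i, B i := fun i => (hB i).nonempty.some
    have hpt : ∀ i, (a i : V) ∈ B i := fun i => (a i).2
    have hinj : Function.Injective fun i => (a i : V) := by
      intro i j hij
      by_contra hne
      have h1 : (a i : V) ∈ B j := by
        have h2 : (a i : V) = a j := hij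
        rw [h2]
        exact hpt j
      exact Set.disjoint_left.1 (hd i j hne) (hpt i) h1
    obtain ⟨X, Y, hX, hY, hXY, v, hvX, hvY⟩ := hR (Finset.univ.image fun i => (a i : V)) (by
      rw [Finset.card_image_of_injective _ hinj, Finset.card_univ, Fintype.card_fin])
    have key : ∀ Z : Set V, Z ⊆ ↑(Finset.univ.image fun i => (a i : V)) →
        v ∈ hull {S | S = Set.univ ∨ ∃ I : Set (Fin p), S = ⋃ i ∈ I, B i} Z →
        ∃ i, (a i : V) ∈ Z ∧ v ∈ B i := by
      intro Z hZ hv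
      have h1 : Z ⊆ ⋃ i ∈ {i | (a i : V) ∈ Z}, B i := by
        intro z hz
        have h2 := hZ hz
        rw [Finset.mem_coe, Finset.mem_image] at h2
        obtain ⟨i, -, rfl⟩ := h2
        exact Set.mem_iUnion₂.2 ⟨i, hz, hpt i⟩
      have h3 : v ∈ ⋃ i ∈ {i | (a i : V) ∈ Z}, B i :=
        hull_subset (Or.inr ⟨_, rfl⟩) h1 hv
      obtain ⟨i, hi, hvi⟩ := Set.mem_iUnion₂.1 h3
      exact ⟨i, hi, hvi⟩
    obtain ⟨i, hi, hvi⟩ := key X hX hvX
    obtain ⟨j, hj, hvj⟩ := key Y hY hvY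
    have hij : i = j := by
      by_contra hne
      exact Set.disjoint_left.1 (hd i j hne) hvi hvj
    subst hij
    exact Set.disjoint_left.1 hXY hi hj

end Pool.Agent.HR54
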