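import Mathlib
import Pool.Agent.HR54.Conn

/-!
# The H-minor lemma (helper file for MP_93e89b_co, note 3571 (1))

`a u` (`u ∈ U`) are different vertices, `H` is a graph on `U`, `C u v` (`uv` an edge of `H`) are connected
sets which contain `a u`, `a v`, the sets of disjoint edges are disjoint, and the three sets of a
triangle have no common point. Then `H` is a minor of `G`, with `a u` in the branch set of `u`.
-/

set_option autoImplicit false

namespace Pool.Agent.HR54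

/-- The hypotheses of the H-minor lemma. -/
structure HSys {V U : Type} (G : SimpleGraph V) (H : SimpleGraph U) (a : U → V)
    (C : U → U → Set V) : Prop where
  symm : ∀ u v, C u v = C v u
  mem : ∀ u v, H.Adj u v → a u ∈ C u v
  conn : ∀ u v, H.Adj u v → (G.induce (C u v)).Preconnected
  conn₂ : ∀ u v w, H.Adj u v → H.Adj u w → v ≠ w → (G.induce (C u v ∩ C u w)).Preconnected
  disj : ∀ u v w z, H.Adj u v → H.Adj w z → u ≠ w → u ≠ z → v ≠ w → v ≠ z →
    Disjoint (C u v) (C w z)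
  inj : ∀ u v, u ≠ v → a u ≠ a v
  notMem : ∀ u v w, H.Adj u v → w ≠ u → w ≠ v → a w ∉ C u v
  tri : ∀ u v w, H.Adj u v → H.Adj u w → H.Adj v w → ∀ x, x ∈ C u v → x ∈ C u w → x ∉ C v w

variable {V U : Type} {G : SimpleGraph V} {H : SimpleGraph U} {a : U → V} {C : U → U → Set V}

private theorem HMinor_meet (h : HSys G H a C) {u v w z : U} (h1 : H.Adj u v) (h2 : H.Adj w z)
    {x : V} (x1 : x ∈ C u v) (x2 : x ∈ C w z) : u = w ∨ u = z ∨ v = w ∨ v = z := by
  by_contra hc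
  push Not at hc
  obtain ⟨c1, c2, c3, c4⟩ := hc
  exact Set.disjoint_left.1 (h.disj u v w z h1 h2 c1 c2 c3 c4) x1 x2

private theorem HMinor_mem' (h : HSys G H a C) {u v : U} (h1 : H.Adj u v) : a v ∈ C u v := by
  rw [h.symm u v]
  exact h.mem v u h1.symm

/-- the kernels of the branch sets -/
private def HMinorB (H : SimpleGraph U) (a : U → V) (C : U → U → Set V) (u : U) : Set V :=
  {x | x = a u ∨ ∃ v w, H.Adj u v ∧ H.Adj u w ∧ v ≠ w ∧ x ∈ C u v ∧ x ∈ C u w}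

private theorem HMinorB_disj (h : HSys G H a C) {u w : U} (huw : u ≠ w) {x : V}
    (hx : x ∈ HMinorB H a C u) : x ∉ HMinorB H a C w := by
  intro hy
  rcases hx with rfl | ⟨v, v', h1, h2, hv, x1, x2⟩
  · rcases hy with hy | ⟨z, z', h3, h4, hz, y1, y2⟩
    · exact h.inj u w huw hy
    · by_cases huz : u = z
      · exact h.notMem w z' u h4 huw (fun hh => hz (huz.symm.trans hh)) y2
      · exact h.notMem w z u h3 huw huz y1
  · rcases hy with rfl | ⟨z, z', h3, h4, hz, y1, y2⟩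
    · by_cases hwv : w = v
      · exact h.notMem u v' w h2 huw.symm (fun hh => hv (hwv.symm.trans hh)) x2
      · exact h.notMem u v w h1 huw.symm hwv x1
    · have e1 := HMinor_meet h h1 h3 x1 y1
      have e2 := HMinor_meet h h1 h4 x1 y2
      have e3 := HMinor_meet h h2 h3 x2 y1
      have e4 := HMinor_meet h h2 h4 x2 y2
      have key : (v = w ∧ z = u ∧ v' = z') ∨ (v = w ∧ z' = u ∧ v' = z) ∨
          (v' = w ∧ z = u ∧ v = z') ∨ (v' = w ∧ z' = u ∧ v = z) := by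
        grind
      rcases key with ⟨rfl, rfl, rfl⟩ | ⟨rfl, rfl, rfl⟩ | ⟨rfl, rfl, rfl⟩ | ⟨rfl, rfl, rfl⟩
      · exact h.tri _ _ _ h1 h2 h4 x x1 x2 y2
      · exact h.tri _ _ _ h1 h2 h3 x x1 x2 y1
      · exact h.tri _ _ _ h2 h1 h4 x x2 x1 y2
      · exact h.tri _ _ _ h2 h1 h3 x x2 x1 y1

private theorem HMinorB_edge (h : HSys G H a C) {u v w : U} (h1 : H.Adj u v) (hwu : w ≠ u)
    (hwv : w ≠ v) {x : V} (hx : x ∈ C u v) : x ∉ HMinorB H a C w := by
  rintro (rfl | ⟨z, z', h3, h4, hz, y1, y2⟩)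
  · exact h.notMem u v w h1 hwu hwv hx
  · have e1 := HMinor_meet h h1 h3 hx y1
    have e2 := HMinor_meet h h1 h4 hx y2
    have key : (z = u ∧ z' = v) ∨ (z = v ∧ z' = u) := by grind
    rcases key with ⟨rfl, rfl⟩ | ⟨rfl, rfl⟩
    · exact h.tri w z z' h3 h4 h1 x y1 y2 hx
    · exact h.tri w z' z h4 h3 h1 x y2 y1 hx

/-- the links -/
private def HMinorE [LT U] (G : SimpleGraph V) (H : SimpleGraph U) (a : U → V)
    (C : U → U → Set V) (E : U → U → Set V) : Prop :=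
  ∀ u v, H.Adj u v → a u ∈ E u v ∧ E u v ⊆ C u v \ HMinorB H a C v ∧
    (G.induce (E u v)).Connected ∧ Touch G (E u v) (C u v ∩ HMinorB H a C v)

private theorem HMinorE_B [LT U] (h : HSys G H a C) {E : U → U → Set V}
    (hE : HMinorE G H a C E) {u v w : U} (huv : H.Adj u v) (hwu : w ≠ u) {x : V}
    (hx : x ∈ E u v) : x ∉ HMinorB H a C w := by
  by_cases hwv : w = v
  · subst hwv
    exact ((hE u w huv).2.1 hx).2
  · exact HMinorB_edge h huv hwu hwv ((hE u v huv).2.1 hx).1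

private theorem HMinorE_disj [LinearOrder U] (h : HSys G H a C) {E : U → U → Set V}
    (hE : HMinorE G H a C E) {u v w z : U} (huw : u ≠ w) (huv : H.Adj u v) (hlt : u < v)
    (hwz : H.Adj w z) (hlt' : w < z) {x : V} (hx : x ∈ E u v) : x ∉ E w z := by
  intro hy
  have x1 := (hE u v huv).2.1 hx
  have x2 := (hE w z hwz).2.1 hy
  rcases HMinor_meet h huv hwz x1.1 x2.1 with e | e | e | e
  · exact huw e
  · -- u = z
    subst e
    refine x2.2 (Or.inr ⟨v, w, huv, hwz.symm, (hlt'.trans hlt).ne', x1.1, ?_⟩)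
    rw [h.symm u w]
    exact x2.1
  · -- v = w
    subst e
    refine x1.2 (Or.inr ⟨z, u, hwz, huv.symm, (hlt.trans hlt').ne', x2.1, ?_⟩)
    rw [h.symm v u]
    exact x1.1
  · -- v = z
    subst e
    refine x1.2 (Or.inr ⟨u, w, huv.symm, hwz.symm, huw, ?_, ?_⟩)
    · rw [h.symm v u]
      exact x1.1
    · rw [h.symm v w]
      exact x2.1

/-- the branch sets -/
private def HMinorF [LT U] (H : SimpleGraph U) (a : U → V) (C : U → U → Set V)
    (E : U → U → Set V) (u : U) : Set V :=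
  {a u} ∪ ⋃ s : {q : U × U // H.Adj u q.1 ∧ H.Adj u q.2 ∧ q.1 ≠ q.2} ⊕
      {v : U // H.Adj u v ∧ u < v}, Sum.elim (fun q => C u q.1.1 ∩ C u q.1.2) (fun v => E u v.1) s

private theorem HMinorF_mem [LT U] {E : U → U → Set V} {u : U} {x : V} :
    x ∈ HMinorF H a C E u ↔ x ∈ HMinorB H a C u ∨ ∃ v, H.Adj u v ∧ u < v ∧ x ∈ E u v := by
  constructor
  · rintro (hx | hx)
    · exact Or.inl (Or.inl hx)
    · obtain ⟨s, hs⟩ := Set.mem_iUnion.1 hx
      rcases s with ⟨⟨v, w⟩, h1, h2, h3⟩ | ⟨v, h1, h2⟩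
      · exact Or.inl (Or.inr ⟨v, w, h1, h2, h3, hs.1, hs.2⟩)
      · exact Or.inr ⟨v, h1, h2, hs⟩
  · rintro ((hx | ⟨v, w, h1, h2, h3, x1, x2⟩) | ⟨v, h1, h2, hx⟩)
    · exact Or.inl hx
    · exact Or.inr (Set.mem_iUnion.2 ⟨Sum.inl ⟨(v, w), h1, h2, h3⟩, x1, x2⟩)
    · exact Or.inr (Set.mem_iUnion.2 ⟨Sum.inr ⟨v, h1, h2⟩, hx⟩)

theorem h_minor [LinearOrder U] (h : HSys G H a C) :
    ∃ B : U → Set V, (∀ u, a u ∈ B u) ∧ (∀ u, (G.induce (B u)).Connected) ∧
      (∀ u v, u ≠ v → Disjoint (B u) (B v)) ∧ ∀ u v, H.Adj u v → Touch G (B u) (B v) := by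
  classical
  have hE : ∀ u v, ∃ E : Set V, H.Adj u v → a u ∈ E ∧ E ⊆ C u v \ HMinorB H a C v ∧
      (G.induce E).Connected ∧ Touch G E (C u v ∩ HMinorB H a C v) := by
    intro u v
    by_cases huv : H.Adj u v
    · obtain ⟨E, h1, h2, h3, h4⟩ := exists_prefix (h.conn u v huv) (h.mem u v huv)
        (HMinorB_disj h huv.ne (Or.inl rfl)) ⟨a v, HMinor_mem' h huv, Or.inl rfl⟩
      exact ⟨E, fun _ => ⟨h1, h2, h3, h4⟩⟩
    · exact ⟨∅, fun h1 => absurd h1 huv⟩
  choose E hE using hE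
  have hE' : HMinorE G H a C E := hE
  refine ⟨HMinorF H a C E, fun u => Or.inl rfl, ?_, ?_, ?_⟩
  · intro u
    refine conn_iUnion (a u) _ ?_ ?_
    · rintro (⟨⟨v, w⟩, h1, h2, h3⟩ | ⟨v, h1, h2⟩)
      · exact (SimpleGraph.connected_iff _).2
          ⟨h.conn₂ u v w h1 h2 h3, ⟨⟨a u, h.mem u v h1, h.mem u w h2⟩⟩⟩
      · exact (hE u v h1).2.2.1
    · rintro (⟨⟨v, w⟩, h1, h2, h3⟩ | ⟨v, h1, h2⟩)
      · exact ⟨h.mem u v h1, h.mem u w h2⟩
      · exact (hE u v h1).1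
  · intro u w huw
    rw [Set.disjoint_left]
    intro x hx hy
    rcases HMinorF_mem.1 hx with hx | ⟨v, h1, h2, hx⟩
    · rcases HMinorF_mem.1 hy with hy | ⟨z, h3, h4, hy⟩
      · exact HMinorB_disj h huw hx hy
      · exact HMinorE_B h hE' h3 huw hy hx
    · rcases HMinorF_mem.1 hy with hy | ⟨z, h3, h4, hy⟩
      · exact HMinorE_B h hE' h1 huw.symm hx hy
      · exact HMinorE_disj h hE' huw h1 h2 h3 h4 hx hy
  · have key : ∀ u v, H.Adj u v → u < v → Touch G (HMinorF H a C E u) (HMinorF H a C E v) := by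
      intro u v huv hlt
      refine (hE u v huv).2.2.2.mono (fun x hx => ?_) (fun x hx => ?_)
      · exact HMinorF_mem.2 (Or.inr ⟨v, huv, hlt, hx⟩)
      · exact HMinorF_mem.2 (Or.inl hx.2)
    intro u v huv
    rcases lt_or_gt_of_ne huv.ne with h1 | h1
    · exact key u v huv h1
    · exact (key v u huv.symm h1).symm

end Pool.Agent.HR54
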