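import Mathlib
import Pool.Agent.HR54.Easy

/-!
# Main theorem (helper file for MP_93e89b_co)
-/

set_option autoImplicit false

namespace Pool.Agent.HR54

theorem radon_minor {V : Type} [Finite V] (G : SimpleGraph V) (hG : G.Connected) (p k : ℕ)
    (Z : Set V) (hk : Z.ncard ≤ k) (hZ : ClawFree (G.induce (Zᶜ : Set V))) :
    (CliqueMinor G p → ∃ 𝒞 : Set (Set V), IsConvexity G 𝒞 ∧ ¬ Radon 𝒞 p) ∧
      ((∃ 𝒞 : Set (Set V), IsConvexity G 𝒞 ∧ ¬ Radon 𝒞 (p + k)) → CliqueMinor G p) := by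
  refine ⟨exists_convexity hG, ?_⟩
  rintro ⟨𝒞, h1, h2⟩
  obtain ⟨a, C, h3⟩ := pairs_of_not_radon h1 h2
  exact cliqueMinor_of_pairs hZ hk h3

end Pool.Agent.HR54
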